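import Pool.Agent.helper52.FS.SpecE

/-!
# MP_07c750, project FS, row BWG: the frequencies are porous at the good scales
-/

set_option autoImplicit false

open scoped MatrixGroups ContDiff Topology UpperHalfPlane ComplexConjugate
open UpperHalfPlane MeasureTheory Filter Set

namespace Pool.Agent.FS

open Pool.Agent.RS
open Pool.Agent.EN (XG MG mkX mkM fl pr)

/-- the decomposition of `lM a * nM z` -/
theorem BWG_dec (a z : ℝ) (h : 0 < 1 + a * z) :
    lM a * nM z = nM (z / (1 + a * z)) * aM (-2 * Real.log (1 + a * z)) * lM (a / (1 + a * z)) := by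
  have e1 : Real.exp (-2 * Real.log (1 + a * z) / 2) = 1 / (1 + a * z) := by
    rw [show -2 * Real.log (1 + a * z) / 2 = -(Real.log (1 + a * z)) by ring, Real.exp_neg,
      Real.exp_log h, one_div]
  have e2 : Real.exp (-(-2 * Real.log (1 + a * z) / 2)) = 1 + a * z := by
    rw [show -(-2 * Real.log (1 + a * z) / 2) = Real.log (1 + a * z) by ring, Real.exp_log h]
  have hne : (1 + a * z) ≠ 0 := ne_of_gt h
  apply Subtype.ext
  simp only [Matrix.SpecialLinearGroup.coe_mul, lM, nM, aM]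
  rw [e1, e2]
  have q1 : 1 / (1 + a * z) + z / (1 + a * z) * (1 + a * z) * (a / (1 + a * z)) = 1 := by
    rw [div_mul_cancel₀ z hne, ← mul_div_assoc, ← add_div, mul_comm z a, div_self hne]
  have q2 : z / (1 + a * z) * (1 + a * z) = z := div_mul_cancel₀ z hne
  have q3 : (1 + a * z) * (a / (1 + a * z)) = a := mul_div_cancel₀ a hne
  ext i j
  fin_cases i <;> fin_cases j
  · simp [Matrix.mul_apply, Fin.sum_univ_two]
    rw [one_div] at q1
    rw [q1]
  · simp [Matrix.mul_apply, Fin.sum_univ_two]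
    rw [q2]
  · simp [Matrix.mul_apply, Fin.sum_univ_two]
    rw [q3]
  · simp [Matrix.mul_apply, Fin.sum_univ_two]
    ring

/-- moving the flow through the decomposition -/
theorem BWG_mv (hGLC : GLC_stmt) (k : SL(2, ℝ)) (a z τ o N i m t : ℝ) (h : 0 < 1 + a * z)
    (hm : -N + i = -m) :
    k * lM a * nM z * aM τ * lM o * aM (-N) * aM i =
      (k * nM (z / (1 + a * z)) * aM (-t)) *
        aM (-2 * Real.log (1 + a * z) + τ - m + t) *
        lM (Real.exp (-m) * (Real.exp τ * (a / (1 + a * z)) + o)) := by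
  obtain ⟨-, -, -, -, -, -, -, -, -, -, ha, -, hl, -, -, -, -, -, hla, -⟩ := hGLC
  have h1 : k * lM a * nM z = k * (lM a * nM z) := by rw [mul_assoc]
  rw [h1, BWG_dec a z h]
  set z' := z / (1 + a * z)
  set w' := a / (1 + a * z)
  set t' := -2 * Real.log (1 + a * z)
  have h2 : k * (nM z' * aM t' * lM w') * aM τ * lM o * aM (-N) * aM i =
      k * nM z' * (aM t' * (lM w' * aM τ)) * lM o * (aM (-N) * aM i) := by
    simp only [mul_assoc]
  rw [h2, hla, ← ha, hm]
  have h3 : k * nM z' * (aM t' * (aM τ * lM (Real.exp τ * w'))) * lM o * aM (-m) =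
      k * nM z' * (aM t' * aM τ) * ((lM (Real.exp τ * w') * lM o) * aM (-m)) := by
    simp only [mul_assoc]
  rw [h3, ← hl, hla, ← ha]
  have h4 : k * nM z' * aM (t' + τ) * (aM (-m) * lM (Real.exp (-m) * (Real.exp τ * w' + o))) =
      k * nM z' * (aM (t' + τ) * aM (-m)) * lM (Real.exp (-m) * (Real.exp τ * w' + o)) := by
    simp only [mul_assoc]
  rw [h4, ← ha]
  have h5 : k * nM z' * aM (-t) * aM (t' + τ - m + t) = k * nM z' * (aM (-t) * aM (t' + τ - m + t)) := by
    simp only [mul_assoc]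
  rw [h5, ← ha]
  have h6 : t' + τ + -m = -t + (t' + τ - m + t) := by ring
  rw [h6]

/-- one sign -/
theorem BWG_one (hGLC : GLC_stmt) (Γ : Subgroup SL(2, ℝ)) (O : Set (XG Γ)) (c0 c1 T1 : ℝ)
    (hc1 : 0 < c1)
    (hP : ∀ (g : SL(2, ℝ)) (s v : ℝ), 0 ≤ s → ∃ x ∈ Icc v (v + Real.exp (-s)),
      ∀ z ∈ Ioo (x - c1 * Real.exp (-s)) (x + c1 * Real.exp (-s)),
        ∃ t ∈ Icc s (s + T1), mkX Γ (g * nM z * aM (-t)) ∈ O)
    (κ0 σ1 : ℝ) (hκ : 0 < κ0) (hσ : Real.exp (-σ1) = 2 * κ0 / Real.pi) (hσ0 : 0 ≤ σ1)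
    (χ : SL(2, ℝ) → ℝ) (n : ℕ) (B : Finset ℕ) (εc l l0 : ℝ)
    (g : SL(2, ℝ)) (hVP : VP Γ O c0 χ) (hε : εc = κ0 * Real.exp (-n)) (hl : 0 ≤ l) (hl0 : l ≤ l0)
    (hl1 : l0 ≤ εc / 100) (hε1 : εc ≤ 1 / 100) (hεc : εc ≤ c0)
    (s : ℝ) (hs : σ1 + T1 + 1 ≤ s) (hs2 : 20 / c1 ≤ Real.exp s) (hsn : s ≤ n)
    (hB : ∀ b ∈ B, ¬ (s - σ1 - T1 - 1 ≤ b ∧ (b : ℝ) ≤ s - σ1)) (ξ : ℝ) (e : SL(2, ℝ)) :
    ∃ y ∈ Icc ξ (ξ + Real.exp s), ∀ j : ℤ, |(j : ℝ) * εc| ≤ 3 / 10 →
      (∃ u ∈ Icc (0 : ℝ) 1, ∃ (x τ o : ℝ), |x| ≤ 4 * εc ∧ |τ| ≤ 3 / 5 ∧ |o| ≤ l0 ∧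
        e * g * lM (l * u) * nM (j * εc + x) * aM τ * lM o ∈
          {h : SL(2, ℝ) | ∀ i < n, i ∉ B → χ (h * aM (-n) * aM i) ≠ 0}) →
      c1 / 2 * Real.exp s ≤ |Real.pi * j / 2 - y| := by
  have hpi := Real.pi_pos
  have hε0 : 0 < εc := by rw [hε]; positivity
  set s' : ℝ := n - s + σ1 with hs'
  have hs'0 : 0 ≤ s' := by rw [hs']; linarith
  have hr : Real.exp (-s') = Real.exp s * (2 * εc / Real.pi) := by
    have : -s' = -(n : ℝ) + s + -σ1 := by rw [hs']; ring
    rw [this, Real.exp_add, Real.exp_add, hσ, hε]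
    ring
  set r : ℝ := Real.exp (-s') with hrdef
  obtain ⟨x, ⟨hx1, hx2⟩, hx⟩ := hP (e * g) s' (ξ * (2 * εc / Real.pi)) hs'0
  have hq : 0 < Real.pi / (2 * εc) := by positivity
  have hq1 : (2 * εc / Real.pi) * (Real.pi / (2 * εc)) = 1 := by field_simp
  refine ⟨x * (Real.pi / (2 * εc)), ⟨?_, ?_⟩, ?_⟩
  · have := mul_le_mul_of_nonneg_right hx1 hq.le
    rw [mul_assoc, hq1, mul_one] at this
    exact this
  · have := mul_le_mul_of_nonneg_right hx2 hq.le
    have h2 : (ξ * (2 * εc / Real.pi) + Real.exp (-s')) * (Real.pi / (2 * εc)) = ξ + Real.exp s := by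
      rw [← hrdef, hr, add_mul, mul_assoc, mul_assoc, hq1, mul_one, mul_one]
    rw [h2] at this
    exact this
  · rintro j hj ⟨u, ⟨hu0, hu1⟩, x0, τ, o, hx0, hτ, ho, hW⟩
    by_contra hcon
    push Not at hcon
    have hW' : ∀ i < n, i ∉ B → χ (e * g * lM (l * u) * nM (j * εc + x0) * aM τ * lM o *
        aM (-n) * aM i) ≠ 0 := hW
    -- the parameters
    set z : ℝ := j * εc + x0 with hz
    set a : ℝ := l * u with ha
    have ha0 : 0 ≤ a := mul_nonneg hl hu0
    have ha1 : a ≤ εc / 100 := by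
      have : l * u ≤ l * 1 := mul_le_mul_of_nonneg_left hu1 hl
      linarith
    have hzabs : |z| ≤ 34 / 100 := by
      have := abs_add_le ((j : ℝ) * εc) x0
      linarith
    have haz : |a * z| ≤ a * (34 / 100) := by
      rw [abs_mul, abs_of_nonneg ha0]
      exact mul_le_mul_of_nonneg_left hzabs ha0
    have haz1 := abs_le.1 haz
    have hp1 : (999 : ℝ) / 1000 ≤ 1 + a * z := by nlinarith [haz1.1]
    have hp2 : 1 + a * z ≤ 1001 / 1000 := by nlinarith [haz1.2]
    have hp0 : 0 < 1 + a * z := by linarith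
    set p : ℝ := 1 + a * z with hp
    have hpinv : 1 / p ≤ 1002 / 1000 := by
      rw [div_le_div_iff₀ hp0 (by norm_num)]
      linarith
    have hpinv0 : 0 < 1 / p := by positivity
    -- the point `z'`
    have hz' : |z / p - z| ≤ εc / 100 := by
      have h1 : z / p - z = -(z * (a * z)) * (1 / p) := by
        have hpne : p ≠ 0 := ne_of_gt hp0
        have h0 : a * z = p - 1 := by rw [hp]; ring
        rw [h0]
        field_simp
        ring
      rw [h1, abs_mul, abs_neg, abs_mul, abs_of_pos hpinv0]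
      have h2 : |z| * |a * z| ≤ 34 / 100 * (a * (34 / 100)) :=
        mul_le_mul hzabs haz (abs_nonneg _) (by norm_num)
      have h3 : |z| * |a * z| * (1 / p) ≤ 34 / 100 * (a * (34 / 100)) * (1002 / 1000) :=
        mul_le_mul h2 hpinv hpinv0.le (by positivity)
      nlinarith
    -- the time
    have hlog1 : Real.log p ≤ 1 / 1000 := by
      have := Real.log_le_sub_one_of_pos hp0
      linarith
    have hlog2 : -(2 / 1000) ≤ Real.log p := by
      have := Real.one_sub_inv_le_log_of_pos hp0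
      rw [← one_div] at this
      linarith
    -- the distance
    have hd : |(j : ℝ) * εc - x| < c1 / 2 * r := by
      have h1 : (j : ℝ) * εc - x = (2 * εc / Real.pi) * (Real.pi * j / 2 - x * (Real.pi / (2 * εc))) := by
        field_simp
      have hq2 : 0 < 2 * εc / Real.pi := by positivity
      rw [h1, abs_mul, abs_of_pos hq2, hr]
      have := mul_lt_mul_of_pos_left hcon hq2
      calc 2 * εc / Real.pi * |Real.pi * j / 2 - x * (Real.pi / (2 * εc))|
          < 2 * εc / Real.pi * (c1 / 2 * Real.exp s) := this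
        _ = c1 / 2 * (Real.exp s * (2 * εc / Real.pi)) := by ring
    have hbig : 401 / 100 * εc ≤ c1 / 2 * r := by
      rw [hr]
      have h1 : 20 ≤ c1 * Real.exp s := by
        rw [div_le_iff₀ hc1] at hs2
        linarith
      have h2 : c1 / 2 * (Real.exp s * (2 * εc / Real.pi)) = (c1 * Real.exp s) * (εc / Real.pi) := by
        ring
      rw [h2]
      have h3 : 20 * (εc / Real.pi) ≤ (c1 * Real.exp s) * (εc / Real.pi) :=
        mul_le_mul_of_nonneg_right h1 (by positivity)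
      have h4 : 401 / 100 * εc ≤ 20 * (εc / Real.pi) := by
        rw [← mul_div_assoc, le_div_iff₀ hpi]
        have := Real.pi_lt_d2
        nlinarith
      linarith
    have hzx : |z / p - x| < c1 * r := by
      have h1 : z / p - x = (z / p - z) + x0 + ((j : ℝ) * εc - x) := by rw [hz]; ring
      rw [h1]
      have h2 := abs_add_le ((z / p - z) + x0) ((j : ℝ) * εc - x)
      have h3 := abs_add_le (z / p - z) x0
      linarith
    have hzx' := abs_lt.1 hzx
    obtain ⟨t, ⟨ht1, ht2⟩, htO⟩ := hx (z / p) ⟨by linarith [hzx'.1], by linarith [hzx'.2]⟩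
    -- the index
    have ht0 : 0 ≤ t := le_trans hs'0 ht1
    set m : ℕ := ⌊t⌋₊ + 1 with hm
    have hm1 : t < m := by
      rw [hm]; push_cast; exact Nat.lt_floor_add_one t
    have hm2 : (m : ℝ) ≤ t + 1 := by
      rw [hm]; push_cast
      have := Nat.floor_le ht0
      linarith
    have hmn : m ≤ n := by
      have : (m : ℝ) ≤ n := by rw [hs'] at ht2; linarith
      exact_mod_cast this
    have hin : n - m < n := by omega
    have hcast : ((n - m : ℕ) : ℝ) = n - m := by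
      rw [Nat.cast_sub hmn]
    have hiB : n - m ∉ B := by
      intro hb
      apply hB _ hb
      rw [hcast]
      rw [hs'] at ht1 ht2
      constructor <;> linarith
    apply hW' (n - m) hin hiB
    rw [BWG_mv hGLC (e * g) a z τ o n ((n - m : ℕ) : ℝ) m t hp0 (by rw [hcast]; ring)]
    apply hVP _ _ _ htO
    · have hτ' := abs_le.1 hτ
      rw [abs_le]
      constructor <;> linarith [hτ'.1, hτ'.2]
    · have hτ' := abs_le.1 hτ
      have hexpτ : Real.exp τ ≤ 3 := by
        have h1 : Real.exp τ ≤ Real.exp 1 := Real.exp_le_exp.2 (by linarith [hτ'.2])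
        have h2 := Real.exp_one_lt_d9
        linarith
      have hem : Real.exp (-(m : ℝ)) ≤ 1 := by
        rw [Real.exp_le_one_iff]
        have : (0 : ℝ) ≤ m := Nat.cast_nonneg m
        linarith
      have hw0 : 0 ≤ a / p := by positivity
      have hw1 : a / p ≤ 2 * (εc / 100) := by
        rw [div_eq_mul_one_div]
        have : a * (1 / p) ≤ (εc / 100) * (1002 / 1000) := mul_le_mul ha1 hpinv hpinv0.le (by positivity)
        linarith
      have hin1 : |Real.exp τ * (a / p) + o| ≤ εc := by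
        have h1 := abs_add_le (Real.exp τ * (a / p)) o
        have h2 : |Real.exp τ * (a / p)| ≤ 3 * (2 * (εc / 100)) := by
          rw [abs_of_nonneg (by positivity)]
          exact mul_le_mul hexpτ hw1 hw0 (by norm_num)
        linarith
      rw [abs_mul, abs_of_pos (Real.exp_pos _)]
      calc Real.exp (-(m : ℝ)) * |Real.exp τ * (a / p) + o| ≤ 1 * εc :=
            mul_le_mul hem hin1 (abs_nonneg _) (by norm_num)
        _ ≤ c0 := by linarith

/-- **Row BWG** -/
theorem BWG_proof (hPOT : POT_stmt) (hGLC : RS.GLC_stmt) : BWG_stmt := by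
  intro Γ O c0 hΓ hO hOne hc0
  obtain ⟨c1, T1, hc1, hc1', hT1, hP⟩ := hPOT Γ O hΓ hO hOne
  have hL1 : 0 ≤ Real.log (4 / c1) := Real.log_nonneg (by rw [le_div_iff₀ hc1]; linarith)
  have hL2 : 0 ≤ Real.log (20 / c1) := Real.log_nonneg (by rw [le_div_iff₀ hc1]; linarith)
  set T : ℝ := T1 + 1 + Real.log (4 / c1) + Real.log (20 / c1) + max 0 (-Real.log c0) + 99 with hT
  have hmax0 : 0 ≤ max 0 (-Real.log c0) := le_max_left _ _
  have hmax1 : -Real.log c0 ≤ max 0 (-Real.log c0) := le_max_right _ _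
  refine ⟨c1 ^ 2 / 8, T, by positivity, by nlinarith, by linarith, ?_⟩
  intro κ0 hκ hκ1
  have hpi := Real.pi_pos
  have hpi3 := Real.pi_gt_three
  have hσ0 : 0 ≤ Real.log (Real.pi / (2 * κ0)) :=
    Real.log_nonneg (by rw [le_div_iff₀ (by positivity)]; linarith)
  have hσe : Real.exp (-Real.log (Real.pi / (2 * κ0))) = 2 * κ0 / Real.pi := by
    rw [Real.exp_neg, Real.exp_log (by positivity), inv_div]
  refine ⟨Real.log (Real.pi / (2 * κ0)), hσ0, ?_⟩
  generalize Real.log (Real.pi / (2 * κ0)) = σ1 at hσ0 hσe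
  intro χ n B εc l l0 g J hVP hε hl hl0 hl1 hJ s hs hsn hB ξ
  have hTn : T ≤ n := by linarith
  have hεT : εc ≤ Real.exp (-T) := by
    rw [hε]
    calc κ0 * Real.exp (-(n : ℝ)) ≤ 1 * Real.exp (-T) :=
          mul_le_mul hκ1 (Real.exp_le_exp.2 (by linarith)) (Real.exp_pos _).le (by norm_num)
      _ = Real.exp (-T) := one_mul _
  have hε1 : εc ≤ 1 / 100 := by
    have h1 : Real.exp (-T) ≤ Real.exp (-99) := Real.exp_le_exp.2 (by linarith)
    have h2 : (100 : ℝ) ≤ Real.exp 99 := by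
      have := Real.add_one_le_exp (99 : ℝ)
      linarith
    have h3 : Real.exp (-99) ≤ 1 / 100 := by
      rw [Real.exp_neg, ← one_div]
      exact one_div_le_one_div_of_le (by norm_num) h2
    linarith
  have hεc : εc ≤ c0 := by
    have h1 : Real.exp (-T) ≤ Real.exp (Real.log c0) := Real.exp_le_exp.2 (by linarith)
    rw [Real.exp_log hc0] at h1
    linarith
  have hs1 : 20 / c1 ≤ Real.exp (s - Real.log (4 / c1)) := by
    have h1 : Real.exp (Real.log (20 / c1)) ≤ Real.exp (s - Real.log (4 / c1)) :=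
      Real.exp_le_exp.2 (by linarith)
    rwa [Real.exp_log (by positivity)] at h1
  have hs2e : Real.exp (s - Real.log (4 / c1)) = c1 / 4 * Real.exp s := by
    rw [sub_eq_add_neg, Real.exp_add, Real.exp_neg, Real.exp_log (by positivity), inv_div]
    ring
  have hs1' : 20 / c1 ≤ Real.exp s := by
    refine hs1.trans (Real.exp_le_exp.2 (by linarith))
  have hes := Real.exp_pos s
  -- the first sign
  obtain ⟨y1, ⟨hy1a, hy1b⟩, hy1⟩ := BWG_one hGLC Γ O c0 c1 T1 hc1 (fun g s v h => (hP g s v h).2)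
    κ0 σ1 hκ hσe hσ0 χ n B εc l l0 g hVP hε hl hl0 hl1 hε1 hεc s (by linarith) hs1' hsn
    (fun b hb h => hB b hb ⟨by linarith [h.1], by linarith [h.2]⟩) ξ 1
  -- the second sign
  set ρ : ℝ := Real.exp (s - Real.log (4 / c1)) with hρ
  have hρ4 : ρ ≤ Real.exp s / 4 := by rw [hs2e]; nlinarith
  have hρ0 : 0 < ρ := Real.exp_pos _
  obtain ⟨ξ2, hξ2a, hξ2b, hξ2c, hξ2d⟩ : ∃ ξ2 : ℝ, ξ ≤ ξ2 ∧ ξ2 + ρ ≤ ξ + Real.exp s ∧
      ξ2 ≤ y1 ∧ y1 ≤ ξ2 + ρ := by
    by_cases h : y1 ≤ ξ + Real.exp s / 2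
    · exact ⟨y1, hy1a, by linarith, le_rfl, by linarith⟩
    · push Not at h
      exact ⟨y1 - ρ, by linarith, by linarith, by linarith, by linarith⟩
  obtain ⟨y2, ⟨hy2a, hy2b⟩, hy2⟩ := BWG_one hGLC Γ O c0 c1 T1 hc1 (fun g s v h => (hP g s v h).2)
    κ0 σ1 hκ hσe hσ0 χ n B εc l l0 g hVP hε hl hl0 hl1 hε1 hεc (s - Real.log (4 / c1))
    (by linarith) hs1 (by linarith)
    (fun b hb h => hB b hb ⟨by linarith [h.1], by linarith [h.2]⟩) ξ2 (-1)
  rw [← hρ] at hy2b hy2
  refine ⟨y2, ⟨by linarith, by linarith⟩, ?_⟩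
  intro j hj
  obtain ⟨hj1, u, hu, x, τ, o, e, he, hx, hτ, ho, hW⟩ := hJ j hj
  rcases he with rfl | rfl
  · have h1 := hy1 j hj1 ⟨u, hu, x, τ, o, hx, hτ, ho, hW⟩
    have h2 : |y2 - y1| ≤ ρ := by
      rw [abs_le]; constructor <;> linarith
    have h3 : |Real.pi * j / 2 - y1| ≤ |Real.pi * j / 2 - y2| + |y2 - y1| := by
      have := abs_add_le (Real.pi * j / 2 - y2) (y2 - y1)
      rwa [sub_add_sub_cancel] at this
    rw [hs2e] at h2
    have h4 : c1 ^ 2 / 8 * Real.exp s ≤ c1 / 4 * Real.exp s :=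
      mul_le_mul_of_nonneg_right (by nlinarith) hes.le
    linarith
  · have h1 := hy2 j hj1 ⟨u, hu, x, τ, o, hx, hτ, ho, hW⟩
    rw [hs2e] at h1
    calc c1 ^ 2 / 8 * Real.exp s = c1 / 2 * (c1 / 4 * Real.exp s) := by ring
      _ ≤ _ := h1

end Pool.Agent.FS
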