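import Pool.Agent.helper52.FS.SpecD

/-!
# MP_07c750, project FS, row FSD: the theorem
-/

set_option autoImplicit false

open scoped MatrixGroups ContDiff Topology UpperHalfPlane ComplexConjugate
open UpperHalfPlane MeasureTheory Filter Set

namespace Pool.Agent.FS

open Pool.Agent.EN (XG MG mkX mkM fl pr)

/-- a sequence of nonempty open sets such that every nonempty open set contains one of them -/
theorem FSD_base (X : Type) [TopologicalSpace X] [SecondCountableTopology X] [Nonempty X] :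
    ∃ O : ℕ → Set X, (∀ i, IsOpen (O i) ∧ (O i).Nonempty) ∧
      ∀ U : Set X, IsOpen U → U.Nonempty → ∃ i, O i ⊆ U := by
  obtain ⟨B, hBc, hBe, hBb⟩ := TopologicalSpace.exists_countable_basis X
  have hBne : B.Nonempty := by
    obtain ⟨x⟩ := (inferInstance : Nonempty X)
    obtain ⟨v, hv, -, -⟩ := hBb.exists_subset_of_mem_open (mem_univ x) isOpen_univ
    exact ⟨v, hv⟩
  obtain ⟨O, hO⟩ := hBc.exists_eq_range hBne
  have hmem : ∀ i, O i ∈ B := fun i => by rw [hO]; exact mem_range_self i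
  refine ⟨O, fun i => ⟨hBb.isOpen (hmem i), ?_⟩, ?_⟩
  · rw [Set.nonempty_iff_ne_empty]
    intro h
    exact hBe (h ▸ hmem i)
  · rintro U hU ⟨x, hx⟩
    obtain ⟨v, hv, -, hvU⟩ := hBb.exists_subset_of_mem_open hx hU
    rw [hO] at hv
    obtain ⟨i, rfl⟩ := hv
    exact ⟨i, hvU⟩

/-- **Row FSD** -/
theorem FSD_proof (hFSK : FSK_stmt) (hXTX : EN.XTX_stmt) (hXFL : EN.XFL_stmt) : FSD_stmt := by
  intro Γ μ K hΓ hμ hK hG
  obtain ⟨hc, ht2, hsc⟩ := hXTX Γ hΓ
  obtain ⟨hfl, -⟩ := hXFL Γ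
  haveI : Nonempty (XG Γ) := ⟨mkX Γ 1⟩
  obtain ⟨O, hO, hOU⟩ := FSD_base (XG Γ)
  have hcont : ∀ t : ℝ, Continuous (fl Γ t) := fun t =>
    hfl.cont.comp (continuous_const.prodMk continuous_id)
  have hcl : ∀ i, IsClosed {x : XG Γ | ∀ t, fl Γ t x ∉ O i} := by
    intro i
    have h1 : {x : XG Γ | ∀ t, fl Γ t x ∉ O i} = ⋂ t : ℝ, (fl Γ t) ⁻¹' (O i)ᶜ := by
      ext x
      simp
    rw [h1]
    exact isClosed_iInter fun t => (hO i).1.isClosed_compl.preimage (hcont t)
  have hset : {x : XG Γ | ¬ Dense (range fun t : ℝ => fl Γ t x)} =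
      ⋃ i, {x : XG Γ | ∀ t, fl Γ t x ∉ O i} := by
    ext x
    simp only [Set.mem_iUnion]
    constructor
    · intro hx
      have hx' : ¬ Dense (range fun t : ℝ => fl Γ t x) := hx
      rw [dense_iff_inter_open] at hx'
      push Not at hx'
      obtain ⟨U, hU, hUne, hUe⟩ := hx'
      obtain ⟨i, hi⟩ := hOU U hU hUne
      refine ⟨i, ?_⟩
      show ∀ t, fl Γ t x ∉ O i
      intro t ht
      have : fl Γ t x ∈ U ∩ range fun t : ℝ => fl Γ t x := ⟨hi ht, mem_range_self t⟩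
      rw [hUe] at this
      exact this
    · rintro ⟨i, hi⟩
      have hi' : ∀ t, fl Γ t x ∉ O i := hi
      show ¬ Dense (range fun t : ℝ => fl Γ t x)
      intro hd
      obtain ⟨y, hy, t, rfl⟩ := dense_iff_inter_open.1 hd (O i) (hO i).1 (hO i).2
      exact hi' t hy
  have hset2 : {x : XG Γ | ¬ Dense (range fun t : ℝ => fl Γ t x)} =
      ⋃ m : ℕ, {x : XG Γ | ∃ i < m, ∀ t, fl Γ t x ∉ O i} := by
    rw [hset]
    ext x
    simp only [Set.mem_iUnion]
    constructor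
    · rintro ⟨i, hi⟩
      exact ⟨i + 1, i, Nat.lt_succ_self i, hi⟩
    · rintro ⟨m, i, -, hi⟩
      exact ⟨i, hi⟩
  constructor
  · rw [hset]
    exact MeasurableSet.iUnion fun i => (hcl i).measurableSet
  · rw [hset2]
    have hmono : Monotone fun m : ℕ => {x : XG Γ | ∃ i < m, ∀ t, fl Γ t x ∉ O i} := by
      rintro m n hmn x ⟨i, him, hi⟩
      exact ⟨i, lt_of_lt_of_le him hmn, hi⟩
    rw [hmono.measure_iUnion]
    exact iSup_le fun m => hFSK Γ μ K hΓ hμ hK hG m O fun i _ => hO i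

end Pool.Agent.FS
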