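import Pool.Agent.helper87.FS.Spec
import Pool.Agent.helper25.NS.RIG

/-!
# RGS: rigidity for graphs with marked vertices
-/

set_option autoImplicit false

namespace Pool.Agent.FS

open Polynomial Matrix Pool.Agent.helper42.NS

theorem RGS : RGS_stmt := by
  intro n S A A' u hA hA' hK hm
  set G : Set ((Fin n → ℤ) × (Fin n → ℤ)) :=
    {p | ∃ (s : S) (l : ℕ), p = ((A ^ l).mulVec (Pi.single (s : Fin n) (1 : ℤ)),
      (A' ^ l).mulVec (Pi.single (u s) (1 : ℤ)))}
    with hGdef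
  have hgen : ∀ s : ℕ, ∀ p ∈ G, ∀ q ∈ G,
      p.1 ⬝ᵥ (A ^ s).mulVec q.1 = p.2 ⬝ᵥ (A' ^ s).mulVec q.2 := by
    rintro s p ⟨i, l, rfl⟩ q ⟨j, r, rfl⟩
    show (A ^ l).mulVec (Pi.single (i : Fin n) (1 : ℤ)) ⬝ᵥ
        (A ^ s).mulVec ((A ^ r).mulVec (Pi.single (j : Fin n) (1 : ℤ))) =
      (A' ^ l).mulVec (Pi.single (u i) (1 : ℤ)) ⬝ᵥ
        (A' ^ s).mulVec ((A' ^ r).mulVec (Pi.single (u j) (1 : ℤ)))
    rw [RIG_move A hA.2.2, RIG_move A' hA'.2.2, single_one_dotProduct, single_one_dotProduct,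
      Matrix.mulVec_single_one, Matrix.mulVec_single_one]
    exact hm i j (l + s + r)
  have hspan : ∀ s : ℕ, ∀ p ∈ Submodule.span ℤ G, ∀ q ∈ Submodule.span ℤ G,
      p.1 ⬝ᵥ (A ^ s).mulVec q.1 = p.2 ⬝ᵥ (A' ^ s).mulVec q.2 := fun s p hp q hq =>
    RIG_span (A ^ s) (A' ^ s) G (hgen s) p q hp hq
  have honto : ∀ v : Fin n → ℤ, ∃ w : Fin n → ℤ, (v, w) ∈ Submodule.span ℤ G := by
    intro v
    have hv : v ∈ Kry A (uv (S : Set (Fin n))) := by
      rw [hK]
      exact Submodule.mem_top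
    unfold Kry at hv
    induction hv using Submodule.span_induction with
    | mem x hx =>
      obtain ⟨b, ⟨s, hs, hb⟩, l, hl⟩ := hx
      refine ⟨(A' ^ l).mulVec (Pi.single (u ⟨s, hs⟩) 1),
        Submodule.subset_span ⟨⟨s, hs⟩, l, ?_⟩⟩
      rw [hl, hb]
    | zero => exact ⟨0, Submodule.zero_mem _⟩
    | add x y _ _ hx hy =>
      obtain ⟨wx, hwx⟩ := hx
      obtain ⟨wy, hwy⟩ := hy
      exact ⟨wx + wy, Submodule.add_mem _ hwx hwy⟩
    | smul c x _ hx =>
      obtain ⟨wx, hwx⟩ := hx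
      exact ⟨c • wx, Submodule.smul_mem _ c hwx⟩
  choose w hw using fun a : Fin n => honto (Pi.single a 1)
  have hinner : ∀ a b, w a ⬝ᵥ w b = if a = b then 1 else 0 := by
    intro a b
    have h1 := hspan 0 _ (hw a) _ (hw b)
    rw [pow_zero, pow_zero, Matrix.one_mulVec, Matrix.one_mulVec] at h1
    rw [← h1]
    show Pi.single a (1 : ℤ) ⬝ᵥ Pi.single b (1 : ℤ) = _
    rw [single_one_dotProduct, Pi.single_apply]
  have hadj : ∀ a b, w a ⬝ᵥ A'.mulVec (w b) = A a b := by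
    intro a b
    have h1 := hspan 1 _ (hw a) _ (hw b)
    rw [pow_one, pow_one] at h1
    rw [← h1]
    show Pi.single a (1 : ℤ) ⬝ᵥ A.mulVec (Pi.single b (1 : ℤ)) = _
    rw [single_one_dotProduct, Matrix.mulVec_single_one]
    rfl
  choose σ hσ1 hσ0 using fun a : Fin n => RIG_unit (w a) (by rw [hinner, if_pos rfl])
  have hwa : ∀ a (v : Fin n → ℤ), w a ⬝ᵥ v = w a (σ a) * v (σ a) := by
    intro a v
    unfold dotProduct
    rw [Finset.sum_eq_single (σ a)]
    · intro j _ hj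
      rw [hσ0 a j hj, zero_mul]
    · intro h
      exact absurd (Finset.mem_univ _) h
  have hinj : Function.Injective σ := by
    intro a b hab
    by_contra hne
    have h1 := hinner a b
    rw [if_neg hne, hwa, hab] at h1
    rcases mul_eq_zero.1 h1 with h2 | h2
    · rw [← hab] at h2
      rcases hσ1 a with h3 | h3 <;> omega
    · rcases hσ1 b with h3 | h3 <;> omega
  have hbij : Function.Bijective σ := Finite.injective_iff_bijective.1 hinj
  refine ⟨Equiv.ofBijective σ hbij, fun a b => ?_, fun s => ?_⟩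
  · show A' (σ a) (σ b) = A a b
    have h1 := hadj a b
    rw [hwa] at h1
    have h2 : A'.mulVec (w b) (σ a) = A' (σ a) (σ b) * w b (σ b) := by
      show (fun j => A' (σ a) j) ⬝ᵥ w b = _
      rw [dotProduct_comm, hwa, mul_comm]
    rw [h2] at h1
    have hx := hA'.1 (σ a) (σ b)
    have hy := hA.1 a b
    rcases hσ1 a with h3 | h3 <;> rcases hσ1 b with h4 | h4 <;> rw [h3, h4] at h1 <;> omega
  · show σ s = u s
    have hmem : (Pi.single (s : Fin n) (1 : ℤ), Pi.single (u s) (1 : ℤ)) ∈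
        Submodule.span ℤ G := by
      refine Submodule.subset_span ⟨s, 0, ?_⟩
      rw [pow_zero, pow_zero, Matrix.one_mulVec, Matrix.one_mulVec]
    have h1 := hspan 0 _ (hw (s : Fin n)) _ hmem
    rw [pow_zero, pow_zero, Matrix.one_mulVec, Matrix.one_mulVec] at h1
    have h2 : Pi.single (s : Fin n) (1 : ℤ) ⬝ᵥ Pi.single (s : Fin n) (1 : ℤ) =
        w (s : Fin n) ⬝ᵥ Pi.single (u s) (1 : ℤ) := h1
    rw [single_one_dotProduct, Pi.single_eq_same, hwa] at h2
    by_contra hne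
    rw [Pi.single_eq_of_ne hne, mul_zero] at h2
    exact one_ne_zero h2

end Pool.Agent.FS
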